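import Pool.Agent.helper47.MSW.SpecA
import Pool.Agent.helper47.MSW.SpecB

set_option autoImplicit false

namespace Pool.Agent.MSW

open Equiv Finset Function MeasureTheory Pool.Agent.helper48.PP
open Pool.Agent.DSW (Pr Has GP wt)
open scoped ENNReal Classical

theorem IN1 (hCPA : CPA_stmt) : IN1_stmt := by
  intro b ω a C C' hC hC' _ _ _ _ _ _ hne
  obtain ⟨-, -, -, -, -, -, h7⟩ := hCPA
  rw [Nat.succ_le_iff, Finset.card_pos, Finset.sdiff_nonempty]
  intro hsub
  exact hne (h7 b.1 b.2 C C' hC hC' hsub).symm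

end Pool.Agent.MSW
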